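import Pool.Agent.Y542.High

/-!
A hyperarithmetic class of computable structures with exactly one structure of high Scott rank.

The class consists of all computable copies of a single computable structure `M`, which is
computably categorical although its automorphism orbits (of elements) are not hyperarithmetic.
Computable categoricity makes the index set of the class arithmetical. If the Scott rank of `M`
were a computable ordinal, then the orbits would be given by a back-and-forth relation of a
computable level, which is hyperarithmetic.
-/

set_option autoImplicit false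

namespace Pool.Agent.Results.MP_9125cf_lc.UniqueHigh

open Pool.Agent.Helper941.Hyp Pool.Agent.Y542

/-- There is a hyperarithmetic class `K` of computable structures (in a computable language) such
that, up to isomorphism, exactly one structure in `K` has noncomputable Scott rank. Moreover the
members of `K` are all isomorphic by computable isomorphisms. -/
theorem result : ∃ (ar : ℕ → ℕ) (K : Set (Struct ar)), Computable ar ∧ HypClass K ∧
    (∃ A ∈ K, HighRank A ∧ ∀ B ∈ K, HighRank B → Iso A B) ∧
    ∀ A ∈ K, ∀ B ∈ K, ∃ f : ℕ ≃ ℕ, Computable f ∧ ∀ i v, A i v ↔ B i fun k => f (v k) := by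
  refine ⟨ar2, K0, Computable.const 2, k0_hyp, ⟨toS M0, ⟨m0_computable, Iso.refl _⟩, m0_high,
    fun B hB _ => hB.2⟩, ?_⟩
  have key : ∀ B ∈ K0, Pool.Agent.Helper941.Dim.CompIso M0 (frS B) := by
    rintro B ⟨⟨e, he⟩, hB⟩
    obtain ⟨h1, h2⟩ := eq_of_index he
    rw [h2] at hB ⊢
    obtain ⟨f, hf⟩ := iso_toS.1 hB
    obtain ⟨h, h3, h4⟩ := m0_cc (comp_SI h1) hf
    exact ⟨h, h3, h4⟩
  intro A hA B hB
  obtain ⟨f, h1, h2⟩ := (key A hA).symm.trans (key B hB)
  refine ⟨f, h2, fun i v => ?_⟩
  have h3 := h1 i (v 0) (v 1)
  have e1 : A = toS (frS A) := (toS_frS A).symm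
  have e2 : B = toS (frS B) := (toS_frS B).symm
  rw [e1, e2]
  exact h3

end Pool.Agent.Results.MP_9125cf_lc.UniqueHigh
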